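import Pool.Agent.Q290.Rwre.Main

/-!
# Harris inequality for the weights and the strict lower bound for the annealed mean
-/

namespace Pool.Agent.Q290.Rwre

open MeasureTheory Filter Finset Topology

variable {α : Measure ℝ} [IsProbabilityMeasure α] {c : ℝ}

lemma ae_pair (hα : Ell α c) :
    ∀ᵐ p ∂(α.prod α), p.1 ∈ Set.Icc c (1 - c) ∧ p.2 ∈ Set.Icc c (1 - c) := by
  have h1 : ∀ᵐ p ∂(α.prod α), p.1 ∈ Set.Icc c (1 - c) :=
    Measure.quasiMeasurePreserving_fst.ae hα.2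
  have h2 : ∀ᵐ p ∂(α.prod α), p.2 ∈ Set.Icc c (1 - c) :=
    Measure.quasiMeasurePreserving_snd.ae hα.2
  filter_upwards [h1, h2] with p a b
  exact ⟨a, b⟩

lemma box_update {ω : ℤ → ℝ} (hω : ∀ x, ω x ∈ Set.Icc c (1 - c)) (j : ℤ) {y : ℝ}
    (hy : y ∈ Set.Icc c (1 - c)) : ∀ x, Function.update ω j y x ∈ Set.Icc c (1 - c) := by
  intro x
  by_cases h : x = j
  · subst h; rw [Function.update_self]; exact hy
  · rw [Function.update_of_ne h]; exact hω x

lemma int_FF_update (hα : Ell α c) {ω : ℤ → ℝ} (hω : ∀ x, ω x ∈ Set.Icc c (1 - c)) (j : ℤ)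
    (n : ℕ) : Integrable (fun y => FF n (Function.update ω j y)) α := by
  apply int_one hα ((measurable_FF n).comp (measurable_update ω)) n
  intro y hy
  exact FF_bound (inside_of_box hα.1 (box_update hω j hy)) n

lemma int_hFF_update (hα : Ell α c) {ω : ℤ → ℝ} (hω : ∀ x, ω x ∈ Set.Icc c (1 - c)) (j : ℤ)
    (n : ℕ) {h : ℝ → ℝ} (hm : Measurable h) {C : ℝ} (hC : ∀ y ∈ Set.Icc c (1 - c), |h y| ≤ C) :
    Integrable (fun y => h y * FF n (Function.update ω j y)) α := by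
  apply int_one hα (hm.mul ((measurable_FF n).comp (measurable_update ω))) (C * n)
  intro y hy
  simp only [Pi.mul_apply, Function.comp_apply]
  rw [abs_mul]
  exact mul_le_mul (hC y hy) (FF_bound (inside_of_box hα.1 (box_update hω j hy)) n)
    (abs_nonneg _) ((abs_nonneg _).trans (hC y hy))

lemma FF_update_mono (hα : Ell α c) {ω : ℤ → ℝ} (hω : ∀ x, ω x ∈ Set.Icc c (1 - c)) (j : ℤ)
    (n : ℕ) {y z : ℝ} (hy : y ∈ Set.Icc c (1 - c)) (hz : z ∈ Set.Icc c (1 - c)) (hyz : y ≤ z) :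
    FF n (Function.update ω j y) ≤ FF n (Function.update ω j z) :=
  qMean_update_mono (inside_of_box hα.1 hω) j (lt_of_lt_of_le hα.1 hy.1) hyz
    (by linarith [hz.2, hα.1]) n 0

lemma neg_pair (hα : Ell α c) {ω : ℤ → ℝ} (hω : ∀ x, ω x ∈ Set.Icc c (1 - c)) (j : ℤ)
    (n : ℕ) {h : ℝ → ℝ}
    (hanti : ∀ y ∈ Set.Icc c (1 - c), ∀ z ∈ Set.Icc c (1 - c), y ≤ z → h z ≤ h y) :
    ∀ᵐ p ∂(α.prod α), (h p.1 - h p.2) *
      (FF n (Function.update ω j p.1) - FF n (Function.update ω j p.2)) ≤ 0 := by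
  filter_upwards [ae_pair hα] with p hp
  rcases le_total p.1 p.2 with h1 | h1
  · have a := hanti _ hp.1 _ hp.2 h1
    have b := FF_update_mono hα hω j n hp.1 hp.2 h1
    exact mul_nonpos_of_nonneg_of_nonpos (by linarith) (by linarith)
  · have a := hanti _ hp.2 _ hp.1 h1
    have b := FF_update_mono hα hω j n hp.2 hp.1 h1
    exact mul_nonpos_of_nonpos_of_nonneg (by linarith) (by linarith)

lemma harris_rr (hα : Ell α c) (n i : ℕ) {j : ℤ} (hfree : Free j (rr i)) {h : ℝ → ℝ}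
    (hm : Measurable h) {C : ℝ} (hC : ∀ y ∈ Set.Icc c (1 - c), |h y| ≤ C)
    (hanti : ∀ y ∈ Set.Icc c (1 - c), ∀ z ∈ Set.Icc c (1 - c), y ≤ z → h z ≤ h y) :
    ∫ ω, h (ω j) * (rr i ω * FF n ω) ∂(P α) ≤ (∫ x, h x ∂α) * ∫ ω, rr i ω * FF n ω ∂(P α) := by
  apply harris_step hfree
  · filter_upwards [ae_box hα] with ω hω
    exact rr_nonneg (inside_of_box hα.1 hω) i
  · exact int_one hα hm C hC
  · apply int_of_box hα ((hm.comp (measurable_pi_apply j)).mul
      ((measurable_rr i).mul (measurable_FF n))) (C * ((1 / c) ^ i * n))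
    intro ω hω
    have hin := inside_of_box hα.1 hω
    simp only [Pi.mul_apply, Function.comp_apply]
    rw [abs_mul, abs_mul, abs_of_nonneg (rr_nonneg hin i)]
    have := hα.1
    exact mul_le_mul (hC _ (hω j)) (mul_le_mul (rr_le hα.1 hω i) (FF_bound hin n)
      (abs_nonneg _) (by positivity)) (mul_nonneg (rr_nonneg hin i) (abs_nonneg _))
      ((abs_nonneg _).trans (hC _ (hω j)))
  · exact int_rF hα n i
  · filter_upwards [ae_box hα] with ω hω
    exact int_FF_update hα hω j n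
  · filter_upwards [ae_box hα] with ω hω
    exact int_hFF_update hα hω j n hm hC
  · filter_upwards [ae_box hα] with ω hω
    exact neg_pair hα hω j n hanti

lemma rho_abs (hα : Ell α c) : ∀ y ∈ Set.Icc c (1 - c), |rho y| ≤ 1 / c := by
  intro y hy
  have h0 : 0 < y := lt_of_lt_of_le hα.1 hy.1
  have h1 : y < 1 := by linarith [hy.2, hα.1]
  rw [abs_of_nonneg (rho_nonneg h0 h1)]
  exact rho_le hα.1 hy

lemma rF_succ_le (hα : Ell α c) (n i : ℕ) :
    ∫ ω, rr (i + 1) ω * FF n ω ∂(P α) ≤ mm α * ∫ ω, rr i ω * FF n ω ∂(P α) := by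
  have h1 := harris_rr hα n i (rr_free i) measurable_rho (rho_abs hα)
    (fun y hy z _ hyz => rho_anti (lt_of_lt_of_le hα.1 hy.1) hyz)
  have e : ∫ ω, rr (i + 1) ω * FF n ω ∂(P α) =
      ∫ ω, rho (ω (i + 1)) * (rr i ω * FF n ω) ∂(P α) := by
    congr 1; funext ω
    rw [rr_succ, mul_assoc]
  rw [e]
  exact h1

lemma rF_le (hα : Ell α c) (n i : ℕ) :
    ∫ ω, rr i ω * FF n ω ∂(P α) ≤ mm α ^ i * ∫ ω, FF n ω ∂(P α) := by
  induction i with
  | zero => simp [rr_zero]
  | succ i ih =>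
    calc _ ≤ mm α * ∫ ω, rr i ω * FF n ω ∂(P α) := rF_succ_le hα n i
      _ ≤ mm α * (mm α ^ i * ∫ ω, FF n ω ∂(P α)) := mul_le_mul_of_nonneg_left ih (mm_nonneg hα)
      _ = _ := by ring

lemma integral_inv (hα : Ell α c) : ∫ y, 1 / y ∂α = 1 + mm α := by
  have e : ∫ y, 1 / y ∂α = ∫ y, (1 + rho y) ∂α := by
    apply integral_congr_ae
    filter_upwards [hα.2] with y hy
    have h0 : y ≠ 0 := (lt_of_lt_of_le hα.1 hy.1).ne'
    unfold rho
    field_simp
    ring
  rw [e, integral_add (integrable_const _) (int_rho hα)]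
  simp [mm]

lemma gF_le (hα : Ell α c) (n i : ℕ) :
    ∫ ω, 1 / ω 0 * (rr i ω * FF n ω) ∂(P α) ≤
      (1 + mm α) * (mm α ^ i * ∫ ω, FF n ω ∂(P α)) := by
  have h1 := harris_rr hα n i (rr_free_zero i) (h := fun y => 1 / y)
    (measurable_const.div measurable_id) (fun y hy => inv_bound hα hy)
    (fun y hy z _ hyz => one_div_le_one_div_of_le (lt_of_lt_of_le hα.1 hy.1) hyz)
  rw [integral_inv hα] at h1
  exact h1.trans (mul_le_mul_of_nonneg_left (rF_le hα n i) (by linarith [mm_nonneg hα]))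

lemma int_FF (hα : Ell α c) (n : ℕ) : Integrable (FF n) (P α) := by
  apply int_of_box hα (measurable_FF n) n
  intro ω hω
  exact FF_bound (inside_of_box hα.1 hω) n

lemma gF_zero_lt (hα : Ell α c) (hnd : ∀ a : ℝ, α ≠ Measure.dirac a) (n : ℕ) :
    ∫ ω, 1 / ω 0 * (rr 0 ω * FF (n + 1) ω) ∂(P α) <
      (1 + mm α) * ∫ ω, FF (n + 1) ω ∂(P α) := by
  have h1 : ∫ ω, (fun y => 1 / y) (ω 0) * FF (n + 1) ω ∂(P α) <
      (∫ x, 1 / x ∂α) * ∫ ω, FF (n + 1) ω ∂(P α) := by
    apply harris_strict hnd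
    · exact int_one hα (measurable_const.div measurable_id) (1 / c) fun y hy => inv_bound hα hy
    · have := int_gF hα (n + 1) 0
      simpa [rr_zero] using this
    · exact int_FF hα (n + 1)
    · filter_upwards [ae_box hα] with ω hω
      exact int_FF_update hα hω 0 (n + 1)
    · filter_upwards [ae_box hα] with ω hω
      exact int_hFF_update hα hω 0 (n + 1) (h := fun y => 1 / y)
        (measurable_const.div measurable_id) (C := 1 / c) (fun y hy => inv_bound hα hy)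
    · filter_upwards [ae_box hα] with ω hω
      have hin := inside_of_box hα.1 hω
      filter_upwards [ae_pair hα] with p hp hne
      have a0 : 0 < p.1 := lt_of_lt_of_le hα.1 hp.1.1
      have b0 : 0 < p.2 := lt_of_lt_of_le hα.1 hp.2.1
      have a1 : p.1 < 1 := by linarith [hp.1.2, hα.1]
      have b1 : p.2 < 1 := by linarith [hp.2.2, hα.1]
      rcases lt_or_gt_of_ne hne with h | h
      · have u := one_div_lt_one_div_of_lt a0 h
        have v := qMean_update_strict hin a0 h b1 n 0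
        unfold FF
        exact mul_neg_of_pos_of_neg (by linarith) (by linarith)
      · have u := one_div_lt_one_div_of_lt b0 h
        have v := qMean_update_strict hin b0 h a1 n 0
        unfold FF
        exact mul_neg_of_neg_of_pos (by linarith) (by linarith)
  rw [integral_inv hα] at h1
  simpa [rr_zero] using h1

/-- the truncated sums -/
noncomputable def BB (α : Measure ℝ) [IsProbabilityMeasure α] (n M : ℕ) : ℝ :=
  ∑ i ∈ range M, ∫ ω, 1 / ω 0 * (rr i ω * FF n ω) ∂(P α)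

lemma BB_zero (M : ℕ) : BB α 0 M = 0 := by
  unfold BB
  apply Finset.sum_eq_zero
  intro i _
  have : ∀ ω, FF 0 ω = 0 := by intro ω; simp [FF, qMean_zero]
  simp [this]

lemma BB_succ (hα : Ell α c) (n M : ℕ) : BB α (n + 1) M = BB α n M + (1 - mm α ^ M) +
    ∫ ω, rr M ω * FF n ω ∂(P α) - ∫ ω, ss M ω * FF n ω ∂(P α) := by
  induction M with
  | zero => simp [BB, rr_zero, ss_zero]
  | succ M ih =>
    unfold BB at ih ⊢
    rw [Finset.sum_range_succ, Finset.sum_range_succ, ih, gF_succ hα, gF_eq hα]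
    ring

lemma int_rr (hα : Ell α c) (i : ℕ) : Integrable (rr i) (P α) := by
  apply int_of_box hα (measurable_rr i) ((1 / c) ^ i)
  intro ω hω
  rw [abs_of_nonneg (rr_nonneg (inside_of_box hα.1 hω) i)]
  exact rr_le hα.1 hω i

lemma int_ss (hα : Ell α c) (i : ℕ) : Integrable (ss i) (P α) := by
  apply int_of_box hα (measurable_ss i) ((1 / c) ^ i)
  intro ω hω
  rw [abs_of_nonneg (ss_nonneg (inside_of_box hα.1 hω) i)]
  exact ss_le hα.1 hω i

lemma rF_abs (hα : Ell α c) (n i : ℕ) : |∫ ω, rr i ω * FF n ω ∂(P α)| ≤ mm α ^ i * n := by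
  have h1 : ‖∫ ω, rr i ω * FF n ω ∂(P α)‖ ≤ ∫ ω, rr i ω * n ∂(P α) := by
    apply norm_integral_le_of_norm_le ((int_rr hα i).mul_const _)
    filter_upwards [ae_box hα] with ω hω
    have hin := inside_of_box hα.1 hω
    rw [Real.norm_eq_abs, abs_mul, abs_of_nonneg (rr_nonneg hin i)]
    exact mul_le_mul_of_nonneg_left (FF_bound hin n) (rr_nonneg hin i)
  rwa [integral_mul_const, integral_rr hα, Real.norm_eq_abs] at h1

lemma sF_abs (hα : Ell α c) (n i : ℕ) : |∫ ω, ss i ω * FF n ω ∂(P α)| ≤ mm α ^ i * n := by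
  have h1 : ‖∫ ω, ss i ω * FF n ω ∂(P α)‖ ≤ ∫ ω, ss i ω * n ∂(P α) := by
    apply norm_integral_le_of_norm_le ((int_ss hα i).mul_const _)
    filter_upwards [ae_box hα] with ω hω
    have hin := inside_of_box hα.1 hω
    rw [Real.norm_eq_abs, abs_mul, abs_of_nonneg (ss_nonneg hin i)]
    exact mul_le_mul_of_nonneg_left (FF_bound hin n) (ss_nonneg hin i)
  rwa [integral_mul_const, integral_ss hα, Real.norm_eq_abs] at h1

lemma BB_tendsto (hα : Ell α c) (hm : mm α < 1) (n : ℕ) :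
    Tendsto (fun M => BB α n M) atTop (𝓝 (n : ℝ)) := by
  have hpow : Tendsto (fun M : ℕ => mm α ^ M) atTop (𝓝 0) :=
    tendsto_pow_atTop_nhds_zero_of_lt_one (mm_nonneg hα) hm
  induction n with
  | zero => simp [BB_zero]
  | succ n ih =>
    have hz : Tendsto (fun M : ℕ => mm α ^ M * (n : ℝ)) atTop (𝓝 0) := by
      simpa using hpow.mul_const (n : ℝ)
    have h1 : Tendsto (fun M : ℕ => ∫ ω, rr M ω * FF n ω ∂(P α)) atTop (𝓝 0) :=
      squeeze_zero_norm (fun M => by rw [Real.norm_eq_abs]; exact rF_abs hα n M) hz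
    have h2 : Tendsto (fun M : ℕ => ∫ ω, ss M ω * FF n ω ∂(P α)) atTop (𝓝 0) :=
      squeeze_zero_norm (fun M => by rw [Real.norm_eq_abs]; exact sF_abs hα n M) hz
    have h3 := ((ih.add ((tendsto_const_nhds (x := (1 : ℝ))).sub hpow)).add h1).sub h2
    simp only [BB_succ hα]
    convert h3 using 2
    push_cast
    ring

/-- **The annealed mean exceeds `v n` for every `n ≥ 1`.** -/
theorem mean_gt (hα : Ell α c) (hnd : ∀ a : ℝ, α ≠ Measure.dirac a) (hm : mm α < 1) (n : ℕ) :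
    (1 - mm α) / (1 + mm α) * ((n + 1 : ℕ) : ℝ) < ∫ ω, FF (n + 1) ω ∂(P α) := by
  set E : ℝ := ∫ ω, FF (n + 1) ω ∂(P α) with hE
  set G : ℝ := ∫ ω, 1 / ω 0 * (rr 0 ω * FF (n + 1) ω) ∂(P α) with hG
  have h0 := mm_nonneg hα
  have hlt : G < (1 + mm α) * E := gF_zero_lt hα hnd n
  have hB : ∀ M : ℕ, BB α (n + 1) (M + 1) ≤
      (1 + mm α) * E * (∑ i ∈ range (M + 1), mm α ^ i) - ((1 + mm α) * E - G) := by
    intro M
    unfold BB
    rw [Finset.sum_range_succ', Finset.sum_range_succ']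
    have h1 : ∑ i ∈ range M, ∫ ω, 1 / ω 0 * (rr (i + 1) ω * FF (n + 1) ω) ∂(P α) ≤
        ∑ i ∈ range M, (1 + mm α) * E * mm α ^ (i + 1) := by
      apply Finset.sum_le_sum
      intro i _
      have := gF_le hα (n + 1) (i + 1)
      calc _ ≤ _ := this
        _ = _ := by rw [← hE]; ring
    rw [← Finset.mul_sum] at h1
    rw [pow_zero, mul_add]
    linarith
  have hsum : Tendsto (fun M : ℕ => ∑ i ∈ range (M + 1), mm α ^ i) atTop (𝓝 (1 - mm α)⁻¹) :=
    ((hasSum_geometric_of_lt_one h0 hm).tendsto_sum_nat).comp (tendsto_add_atTop_nat 1)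
  have hlim1 : Tendsto (fun M : ℕ => BB α (n + 1) (M + 1)) atTop (𝓝 ((n + 1 : ℕ) : ℝ)) :=
    (BB_tendsto hα hm (n + 1)).comp (tendsto_add_atTop_nat 1)
  have hlim2 := (hsum.const_mul ((1 + mm α) * E)).sub_const ((1 + mm α) * E - G)
  have hle := le_of_tendsto_of_tendsto' hlim1 hlim2 hB
  have hpos : 0 < 1 - mm α := by linarith
  have hlt2 : ((n + 1 : ℕ) : ℝ) < (1 + mm α) * E * (1 - mm α)⁻¹ := by linarith
  rw [← div_eq_mul_inv, lt_div_iff₀ hpos] at hlt2
  rw [div_mul_eq_mul_div, div_lt_iff₀ (by linarith)]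
  linarith

end Pool.Agent.Q290.Rwre
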