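import Mathlib

/-!
# Product measures: resampling one coordinate, a Harris type inequality

`P α` is the law of an i.i.d. family `(ω x)`, `x ∈ ℤ`, with one-site law `α`.
-/

namespace Pool.Agent.Q290.Rwre

open MeasureTheory Filter

variable {α : Measure ℝ} [IsProbabilityMeasure α]

/-- the law of an i.i.d. environment -/
noncomputable abbrev P (α : Measure ℝ) [IsProbabilityMeasure α] : Measure (ℤ → ℝ) :=
  Measure.infinitePi fun _ : ℤ => α

lemma measurable_update_pair (j : ℤ) :
    Measurable fun p : (ℤ → ℝ) × ℝ => Function.update p.1 j p.2 := by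
  rw [measurable_pi_iff]
  intro i
  by_cases h : i = j
  · subst h
    simpa using measurable_snd
  · simp only [Function.update_of_ne h]
    exact (measurable_pi_apply i).comp measurable_fst

lemma map_update (j : ℤ) :
    Measure.map (fun p : (ℤ → ℝ) × ℝ => Function.update p.1 j p.2) ((P α).prod α) = P α := by
  apply Measure.eq_infinitePi
  intro s t ht
  have hms : MeasurableSet (Set.pi (s : Set ℤ) t) :=
    MeasurableSet.pi s.countable_toSet fun i _ => ht i
  rw [Measure.map_apply (measurable_update_pair j) hms]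
  by_cases hj : j ∈ s
  · have h1 : (fun p : (ℤ → ℝ) × ℝ => Function.update p.1 j p.2) ⁻¹' (Set.pi (s : Set ℤ) t) =
        (Set.pi ((s.erase j : Finset ℤ) : Set ℤ) t) ×ˢ (t j) := by
      ext p
      simp only [Set.mem_preimage, Set.mem_pi, Finset.mem_coe, Set.mem_prod, Finset.mem_erase]
      constructor
      · intro h
        refine ⟨fun i hi => ?_, ?_⟩
        · have := h i hi.2
          rwa [Function.update_of_ne hi.1] at this
        · have := h j hj
          rwa [Function.update_self] at this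
      · rintro ⟨h, h'⟩ i hi
        by_cases hij : i = j
        · subst hij; rwa [Function.update_self]
        · rw [Function.update_of_ne hij]
          exact h i ⟨hij, hi⟩
    rw [h1, Measure.prod_prod, Measure.infinitePi_pi _ (fun i _ => ht i), mul_comm,
      Finset.mul_prod_erase s (fun i => α (t i)) hj]
  · have h1 : (fun p : (ℤ → ℝ) × ℝ => Function.update p.1 j p.2) ⁻¹' (Set.pi (s : Set ℤ) t) =
        (Set.pi (s : Set ℤ) t) ×ˢ Set.univ := by
      ext p
      simp only [Set.mem_preimage, Set.mem_pi, Finset.mem_coe, Set.mem_prod, Set.mem_univ,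
        and_true]
      constructor
      · intro h i hi
        have hij : i ≠ j := fun e => hj (e ▸ hi)
        have := h i hi
        rwa [Function.update_of_ne hij] at this
      · intro h i hi
        have hij : i ≠ j := fun e => hj (e ▸ hi)
        rw [Function.update_of_ne hij]
        exact h i hi
    rw [h1, Measure.prod_prod, Measure.infinitePi_pi _ (fun i _ => ht i), measure_univ, mul_one]

/-- Resampling of the coordinate `j`. -/
lemma integral_resample (j : ℤ) {G : (ℤ → ℝ) → ℝ} (hG : Integrable G (P α)) :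
    ∫ ω, G ω ∂(P α) = ∫ ω, ∫ y, G (Function.update ω j y) ∂α ∂(P α) := by
  have h1 : ∫ ω, G ω ∂(P α) = ∫ p : (ℤ → ℝ) × ℝ, G (Function.update p.1 j p.2) ∂((P α).prod α) := by
    conv_lhs => rw [← map_update (α := α) j]
    rw [integral_map (measurable_update_pair j).aemeasurable]
    rw [map_update]
    exact hG.aestronglyMeasurable
  rw [h1]
  apply integral_prod
  have h2 := hG
  rw [← map_update (α := α) j] at h2
  exact h2.comp_measurable (measurable_update_pair j)

lemma integrable_resample (j : ℤ) {G : (ℤ → ℝ) → ℝ} (hG : Integrable G (P α)) :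
    Integrable (fun ω => ∫ y, G (Function.update ω j y) ∂α) (P α) := by
  have h2 := hG
  rw [← map_update (α := α) j] at h2
  exact (h2.comp_measurable (measurable_update_pair j)).integral_prod_left

lemma ae_resample (j : ℤ) {p : (ℤ → ℝ) → Prop} (h : ∀ᵐ ω ∂(P α), p ω) :
    ∀ᵐ ω ∂(P α), ∀ᵐ y ∂α, p (Function.update ω j y) := by
  rw [← map_update (α := α) j] at h
  have h2 := ae_of_ae_map (measurable_update_pair j).aemeasurable h
  exact Measure.ae_ae_of_ae_prod h2

lemma ae_integrable_resample (j : ℤ) {G : (ℤ → ℝ) → ℝ} (hG : Integrable G (P α)) :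
    ∀ᵐ ω ∂(P α), Integrable (fun y => G (Function.update ω j y)) α := by
  have h2 := hG
  rw [← map_update (α := α) j] at h2
  exact (h2.comp_measurable (measurable_update_pair j)).prod_right_ae

/-- shift of the environment -/
def shift (k : ℤ) (ω : ℤ → ℝ) : ℤ → ℝ := fun x => ω (x + k)

lemma measurable_shift (k : ℤ) : Measurable (shift k) := by
  rw [measurable_pi_iff]
  intro x
  exact measurable_pi_apply (x + k)

lemma map_shift (k : ℤ) : Measure.map (shift k) (P α) = P α := by
  apply Measure.eq_infinitePi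
  intro s t ht
  have hms : MeasurableSet (Set.pi (s : Set ℤ) t) :=
    MeasurableSet.pi s.countable_toSet fun i _ => ht i
  rw [Measure.map_apply (measurable_shift k) hms]
  have h1 : (shift k) ⁻¹' (Set.pi (s : Set ℤ) t) =
      Set.pi ((s.map (addRightEmbedding k) : Finset ℤ) : Set ℤ) (fun i => t (i - k)) := by
    ext ω
    simp only [Set.mem_preimage, Set.mem_pi, Finset.mem_coe, Finset.mem_map,
      addRightEmbedding_apply, shift]
    constructor
    · rintro h i ⟨a, ha, rfl⟩
      have e : a + k - k = a := by ring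
      rw [e]
      exact h a ha
    · intro h i hi
      have h2 := h (i + k) ⟨i, hi, rfl⟩
      have e : i + k - k = i := by ring
      rw [e] at h2
      exact h2
  rw [h1, Measure.infinitePi_pi _ (fun i _ => ht _), Finset.prod_map]
  apply Finset.prod_congr rfl
  intro i _
  change α (t (i + k - k)) = α (t i)
  have e : i + k - k = i := by ring
  rw [e]

lemma integral_shift (k : ℤ) {G : (ℤ → ℝ) → ℝ} (hG : AEStronglyMeasurable G (P α)) :
    ∫ ω, G (shift k ω) ∂(P α) = ∫ ω, G ω ∂(P α) := by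
  conv_rhs => rw [← map_shift (α := α) k]
  rw [integral_map (measurable_shift k).aemeasurable]
  rw [map_shift]
  exact hG

section Chebyshev

variable {h φ : ℝ → ℝ}

lemma cheb_aux (hh : Integrable h α) (hφ : Integrable φ α)
    (hhφ : Integrable (fun x => h x * φ x) α) :
    Integrable (fun p : ℝ × ℝ => (h p.1 - h p.2) * (φ p.1 - φ p.2)) (α.prod α) ∧
    ∫ p : ℝ × ℝ, (h p.1 - h p.2) * (φ p.1 - φ p.2) ∂(α.prod α) =
      2 * ∫ x, h x * φ x ∂α - 2 * ((∫ x, h x ∂α) * ∫ x, φ x ∂α) := by
  have i1 : Integrable (fun p : ℝ × ℝ => h p.1 * φ p.1) (α.prod α) := hhφ.comp_fst α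
  have i2 : Integrable (fun p : ℝ × ℝ => h p.2 * φ p.2) (α.prod α) := hhφ.comp_snd α
  have i3 : Integrable (fun p : ℝ × ℝ => h p.1 * φ p.2) (α.prod α) := hh.mul_prod hφ
  have i4 : Integrable (fun p : ℝ × ℝ => φ p.1 * h p.2) (α.prod α) := hφ.mul_prod hh
  have e : (fun p : ℝ × ℝ => (h p.1 - h p.2) * (φ p.1 - φ p.2)) =
      fun p => (h p.1 * φ p.1 + h p.2 * φ p.2) - (h p.1 * φ p.2 + φ p.1 * h p.2) := by
    funext p; ring
  have i12 : Integrable (fun p : ℝ × ℝ => h p.1 * φ p.1 + h p.2 * φ p.2) (α.prod α) := i1.add i2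
  have i34 : Integrable (fun p : ℝ × ℝ => h p.1 * φ p.2 + φ p.1 * h p.2) (α.prod α) := i3.add i4
  rw [e]
  refine ⟨i12.sub i34, ?_⟩
  rw [integral_sub i12 i34, integral_add i1 i2, integral_add i3 i4,
    integral_prod_mul, integral_prod_mul]
  have e1 : ∫ p : ℝ × ℝ, h p.1 * φ p.1 ∂(α.prod α) = ∫ x, h x * φ x ∂α := by
    have := integral_prod_mul (μ := α) (ν := α) (fun x => h x * φ x) (fun _ => (1 : ℝ))
    simpa using this
  have e2 : ∫ p : ℝ × ℝ, h p.2 * φ p.2 ∂(α.prod α) = ∫ x, h x * φ x ∂α := by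
    have := integral_prod_mul (μ := α) (ν := α) (fun _ => (1 : ℝ)) (fun x => h x * φ x)
    simpa using this
  rw [e1, e2]
  ring

lemma cheb (hh : Integrable h α) (hφ : Integrable φ α)
    (hhφ : Integrable (fun x => h x * φ x) α)
    (hneg : ∀ᵐ p ∂(α.prod α), (h p.1 - h p.2) * (φ p.1 - φ p.2) ≤ 0) :
    ∫ x, h x * φ x ∂α ≤ (∫ x, h x ∂α) * ∫ x, φ x ∂α := by
  obtain ⟨h1, h2⟩ := cheb_aux hh hφ hhφ
  have h3 : ∫ p : ℝ × ℝ, (h p.1 - h p.2) * (φ p.1 - φ p.2) ∂(α.prod α) ≤ 0 :=
    integral_nonpos_of_ae hneg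
  linarith

lemma offdiag_pos (hnd : ∀ a : ℝ, α ≠ Measure.dirac a) :
    (α.prod α) {p : ℝ × ℝ | p.1 ≠ p.2} ≠ 0 := by
  intro h0
  have hms : MeasurableSet {p : ℝ × ℝ | p.1 ≠ p.2} :=
    (measurableSet_eq_fun measurable_fst measurable_snd).compl
  rw [Measure.measure_prod_null hms] at h0
  obtain ⟨x, hx⟩ := h0.exists
  have hx' : α {y | x ≠ y} = 0 := hx
  apply hnd x
  ext s hs
  rw [Measure.dirac_apply' x hs]
  by_cases hxs : x ∈ s
  · rw [Set.indicator_of_mem hxs, Pi.one_apply]
    have h1 : α sᶜ = 0 := by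
      apply measure_mono_null _ hx'
      intro y hy e
      exact hy (e ▸ hxs)
    exact (prob_compl_eq_zero_iff hs).mp h1
  · rw [Set.indicator_of_notMem hxs]
    apply measure_mono_null _ hx'
    intro y hy e
    exact hxs (e ▸ hy)

lemma cheb_strict (hnd : ∀ a : ℝ, α ≠ Measure.dirac a) (hh : Integrable h α) (hφ : Integrable φ α)
    (hhφ : Integrable (fun x => h x * φ x) α)
    (hneg : ∀ᵐ p ∂(α.prod α), p.1 ≠ p.2 → (h p.1 - h p.2) * (φ p.1 - φ p.2) < 0) :
    ∫ x, h x * φ x ∂α < (∫ x, h x ∂α) * ∫ x, φ x ∂α := by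
  obtain ⟨h1, h2⟩ := cheb_aux hh hφ hhφ
  have hle : ∀ᵐ p ∂(α.prod α), 0 ≤ -((h p.1 - h p.2) * (φ p.1 - φ p.2)) := by
    filter_upwards [hneg] with p hp
    by_cases e : p.1 = p.2
    · rw [e]; simp
    · have := hp e
      linarith
  have h3 : 0 < ∫ p : ℝ × ℝ, -((h p.1 - h p.2) * (φ p.1 - φ p.2)) ∂(α.prod α) := by
    rw [integral_pos_iff_support_of_nonneg_ae hle h1.neg]
    rw [pos_iff_ne_zero]
    intro h0
    apply offdiag_pos hnd
    have hneg' : (α.prod α) {p : ℝ × ℝ | ¬ (p.1 ≠ p.2 → (h p.1 - h p.2) * (φ p.1 - φ p.2) < 0)} = 0 :=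
      hneg
    apply measure_mono_null _ (measure_union_null h0 hneg')
    intro p hp
    by_cases hq : p.1 ≠ p.2 → (h p.1 - h p.2) * (φ p.1 - φ p.2) < 0
    · left
      rw [Function.mem_support]
      have := hq hp
      linarith
    · right
      exact hq
  rw [integral_neg] at h3
  linarith

end Chebyshev

/-- Functions which do not depend on the coordinate `j`. -/
def Free (j : ℤ) (K : (ℤ → ℝ) → ℝ) : Prop := ∀ ω y, K (Function.update ω j y) = K ω

lemma factor_out {j : ℤ} {K : (ℤ → ℝ) → ℝ} (hK : Free j K) {h : ℝ → ℝ}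
    (hi : Integrable (fun ω => h (ω j) * K ω) (P α)) :
    ∫ ω, h (ω j) * K ω ∂(P α) = (∫ x, h x ∂α) * ∫ ω, K ω ∂(P α) := by
  rw [integral_resample j hi]
  simp only [Function.update_self, hK _ _]
  simp_rw [integral_mul_const]
  rw [integral_const_mul]

/-- One step of the Harris inequality. -/
lemma harris_step {j : ℤ} {K F : (ℤ → ℝ) → ℝ} (hK : Free j K) (hK0 : ∀ᵐ ω ∂(P α), 0 ≤ K ω)
    {h : ℝ → ℝ} (hh : Integrable h α)
    (hi : Integrable (fun ω => h (ω j) * (K ω * F ω)) (P α))
    (hKF : Integrable (fun ω => K ω * F ω) (P α))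
    (hF : ∀ᵐ ω ∂(P α), Integrable (fun y => F (Function.update ω j y)) α)
    (hhF : ∀ᵐ ω ∂(P α), Integrable (fun y => h y * F (Function.update ω j y)) α)
    (hneg : ∀ᵐ ω ∂(P α), ∀ᵐ p ∂(α.prod α),
      (h p.1 - h p.2) * (F (Function.update ω j p.1) - F (Function.update ω j p.2)) ≤ 0) :
    ∫ ω, h (ω j) * (K ω * F ω) ∂(P α) ≤ (∫ x, h x ∂α) * ∫ ω, K ω * F ω ∂(P α) := by
  rw [integral_resample j hi, integral_resample j hKF, ← integral_const_mul]
  apply integral_mono_ae (integrable_resample j hi) ((integrable_resample j hKF).const_mul _)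
  filter_upwards [hK0, hF, hhF, hneg] with ω h0 h1 h2 h3
  simp only [Function.update_self, hK _ _]
  have e1 : ∫ y, h y * (K ω * F (Function.update ω j y)) ∂α =
      K ω * ∫ y, h y * F (Function.update ω j y) ∂α := by
    rw [← integral_const_mul]
    congr 1; funext y; ring
  have e2 : ∫ y, K ω * F (Function.update ω j y) ∂α = K ω * ∫ y, F (Function.update ω j y) ∂α :=
    integral_const_mul _ _
  rw [e1, e2]
  have := cheb hh h1 h2 h3
  calc K ω * ∫ y, h y * F (Function.update ω j y) ∂α
      ≤ K ω * ((∫ x, h x ∂α) * ∫ y, F (Function.update ω j y) ∂α) :=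
        mul_le_mul_of_nonneg_left this h0
    _ = _ := by ring

/-- The strict inequality for one coordinate. -/
lemma harris_strict (hnd : ∀ a : ℝ, α ≠ Measure.dirac a) {j : ℤ} {F : (ℤ → ℝ) → ℝ}
    {h : ℝ → ℝ} (hh : Integrable h α)
    (hi : Integrable (fun ω => h (ω j) * F ω) (P α))
    (hFi : Integrable F (P α))
    (hF : ∀ᵐ ω ∂(P α), Integrable (fun y => F (Function.update ω j y)) α)
    (hhF : ∀ᵐ ω ∂(P α), Integrable (fun y => h y * F (Function.update ω j y)) α)
    (hneg : ∀ᵐ ω ∂(P α), ∀ᵐ p ∂(α.prod α), p.1 ≠ p.2 →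
      (h p.1 - h p.2) * (F (Function.update ω j p.1) - F (Function.update ω j p.2)) < 0) :
    ∫ ω, h (ω j) * F ω ∂(P α) < (∫ x, h x ∂α) * ∫ ω, F ω ∂(P α) := by
  rw [integral_resample j hi, integral_resample j hFi, ← integral_const_mul]
  have i1 := integrable_resample j hi
  have i2 := (integrable_resample j hFi).const_mul (∫ x, h x ∂α)
  have hlt : ∀ᵐ ω ∂(P α), ∫ y, h (Function.update ω j y j) * F (Function.update ω j y) ∂α <
      (∫ x, h x ∂α) * ∫ y, F (Function.update ω j y) ∂α := by
    filter_upwards [hF, hhF, hneg] with ω h1 h2 h3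
    simp only [Function.update_self]
    exact cheb_strict hnd hh h1 h2 h3
  have hpos : 0 < ∫ ω, ((∫ x, h x ∂α) * ∫ y, F (Function.update ω j y) ∂α) -
      (∫ y, h (Function.update ω j y j) * F (Function.update ω j y) ∂α) ∂(P α) := by
    have i21 : Integrable (fun ω => ((∫ x, h x ∂α) * ∫ y, F (Function.update ω j y) ∂α) -
      (∫ y, h (Function.update ω j y j) * F (Function.update ω j y) ∂α)) (P α) := i2.sub i1
    rw [integral_pos_iff_support_of_nonneg_ae (hlt.mono fun ω hω => by
      simp only [Pi.zero_apply]; linarith) i21]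
    have h4 : (Function.support fun ω => ((∫ x, h x ∂α) * ∫ y, F (Function.update ω j y) ∂α) -
      (∫ y, h (Function.update ω j y j) * F (Function.update ω j y) ∂α)) =ᵐ[P α] Set.univ := by
      rw [ae_eq_univ]
      have h5 : (P α) {ω | ¬ (∫ y, h (Function.update ω j y j) * F (Function.update ω j y) ∂α <
        (∫ x, h x ∂α) * ∫ y, F (Function.update ω j y) ∂α)} = 0 := hlt
      apply measure_mono_null _ h5
      intro ω hω
      simp only [Set.mem_compl_iff, Function.mem_support, not_not] at hω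
      simp only [Set.mem_ofPred_eq, not_lt]
      linarith
    rw [measure_congr h4]
    simp
  rw [integral_sub i2 i1] at hpos
  linarith

end Pool.Agent.Q290.Rwre
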