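import Pool.Agent.Q290.Rwre.Walk

/-!
# The annealed mean of a random walk in random environment is larger than `v n`
-/

namespace Pool.Agent.Q290.Rwre

open MeasureTheory Filter Finset Topology

variable {α : Measure ℝ} [IsProbabilityMeasure α]

/-- `ρ(y) = (1 - y) / y` -/
noncomputable def rho (y : ℝ) : ℝ := (1 - y) / y

/-- uniform ellipticity -/
def Ell (α : Measure ℝ) (c : ℝ) : Prop := 0 < c ∧ ∀ᵐ y ∂α, y ∈ Set.Icc c (1 - c)

lemma rho_nonneg {y : ℝ} (h0 : 0 < y) (h1 : y < 1) : 0 ≤ rho y :=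
  div_nonneg (by linarith) h0.le

lemma measurable_rho : Measurable rho := by
  unfold rho
  exact (measurable_const.sub measurable_id).div measurable_id

lemma rho_le {c y : ℝ} (hc : 0 < c) (hy : y ∈ Set.Icc c (1 - c)) : rho y ≤ 1 / c := by
  unfold rho
  have h0 : 0 < y := lt_of_lt_of_le hc hy.1
  rw [div_le_div_iff₀ h0 hc]
  nlinarith [hy.1, hy.2]

lemma rho_anti {y z : ℝ} (h0 : 0 < y) (h : y ≤ z) : rho z ≤ rho y := by
  unfold rho
  rw [div_le_div_iff₀ (by linarith) h0]
  nlinarith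

lemma inside_of_box {c : ℝ} (hc : 0 < c) {ω : ℤ → ℝ} (h : ∀ x, ω x ∈ Set.Icc c (1 - c)) :
    Inside ω := fun x => ⟨lt_of_lt_of_le hc (h x).1, by linarith [(h x).2]⟩

lemma ae_box {c : ℝ} (hα : Ell α c) : ∀ᵐ ω ∂(P α), ∀ x, ω x ∈ Set.Icc c (1 - c) := by
  rw [ae_all_iff]
  intro x
  have h1 := (measurePreserving_eval_infinitePi (fun _ : ℤ => α) x).quasiMeasurePreserving.ae hα.2
  exact h1

/-- bounded measurable functions are integrable -/
lemma int_of_box {c : ℝ} (hα : Ell α c) {G : (ℤ → ℝ) → ℝ} (hG : Measurable G) (C : ℝ)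
    (hC : ∀ ω : ℤ → ℝ, (∀ x, ω x ∈ Set.Icc c (1 - c)) → |G ω| ≤ C) : Integrable G (P α) := by
  apply Integrable.of_bound hG.aestronglyMeasurable C
  filter_upwards [ae_box hα] with ω hω
  exact hC ω hω

lemma int_one {c : ℝ} (hα : Ell α c) {h : ℝ → ℝ} (hh : Measurable h) (C : ℝ)
    (hC : ∀ y ∈ Set.Icc c (1 - c), |h y| ≤ C) : Integrable h α := by
  apply Integrable.of_bound hh.aestronglyMeasurable C
  filter_upwards [hα.2] with y hy
  exact hC y hy

/-- `∏_{j=1}^i ρ_j` -/
noncomputable def rr (i : ℕ) (ω : ℤ → ℝ) : ℝ := ∏ j ∈ range i, rho (ω (j + 1))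

/-- `∏_{j=0}^{i-1} ρ_j` -/
noncomputable def ss (i : ℕ) (ω : ℤ → ℝ) : ℝ := ∏ j ∈ range i, rho (ω j)

lemma measurable_rr (i : ℕ) : Measurable (rr i) := by
  unfold rr
  exact Finset.measurable_prod _ fun j _ => measurable_rho.comp (measurable_pi_apply _)

lemma measurable_ss (i : ℕ) : Measurable (ss i) := by
  unfold ss
  exact Finset.measurable_prod _ fun j _ => measurable_rho.comp (measurable_pi_apply _)

lemma rr_shift (i : ℕ) (ω : ℤ → ℝ) : ss i (shift 1 ω) = rr i ω := by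
  unfold rr ss shift
  rfl

lemma ss_shift (i : ℕ) (ω : ℤ → ℝ) : rr i (shift (-1) ω) = ss i ω := by
  unfold rr ss shift
  apply Finset.prod_congr rfl
  intro j _
  congr 2
  ring

lemma rr_zero (ω : ℤ → ℝ) : rr 0 ω = 1 := by simp [rr]
lemma ss_zero (ω : ℤ → ℝ) : ss 0 ω = 1 := by simp [ss]

lemma rr_succ (i : ℕ) (ω : ℤ → ℝ) : rr (i + 1) ω = rho (ω (i + 1)) * rr i ω := by
  unfold rr
  rw [Finset.prod_range_succ, mul_comm]

lemma ss_succ (i : ℕ) (ω : ℤ → ℝ) : ss (i + 1) ω = rho (ω 0) * rr i ω := by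
  unfold rr ss
  rw [Finset.prod_range_succ', mul_comm]
  simp

lemma rr_free (i : ℕ) : Free (i + 1 : ℤ) (rr i) := by
  intro ω y
  unfold rr
  apply Finset.prod_congr rfl
  intro j hj
  rw [Finset.mem_range] at hj
  rw [Function.update_of_ne]
  have : (j : ℤ) < i := by exact_mod_cast hj
  intro h
  omega

lemma rr_free_zero (i : ℕ) : Free 0 (rr i) := by
  intro ω y
  unfold rr
  apply Finset.prod_congr rfl
  intro j _
  rw [Function.update_of_ne]
  intro h
  omega

lemma rr_nonneg {ω : ℤ → ℝ} (hω : Inside ω) (i : ℕ) : 0 ≤ rr i ω :=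
  Finset.prod_nonneg fun j _ => rho_nonneg (hω _).1 (hω _).2

lemma rr_le {c : ℝ} (hc : 0 < c) {ω : ℤ → ℝ} (hω : ∀ x, ω x ∈ Set.Icc c (1 - c)) (i : ℕ) :
    rr i ω ≤ (1 / c) ^ i := by
  have hin := inside_of_box hc hω
  unfold rr
  calc ∏ j ∈ range i, rho (ω (j + 1)) ≤ ∏ _j ∈ range i, (1 / c) :=
        Finset.prod_le_prod (fun j _ => rho_nonneg (hin _).1 (hin _).2) fun j _ => rho_le hc (hω _)
    _ = _ := by simp

lemma ss_nonneg {ω : ℤ → ℝ} (hω : Inside ω) (i : ℕ) : 0 ≤ ss i ω :=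
  Finset.prod_nonneg fun j _ => rho_nonneg (hω _).1 (hω _).2

lemma ss_le {c : ℝ} (hc : 0 < c) {ω : ℤ → ℝ} (hω : ∀ x, ω x ∈ Set.Icc c (1 - c)) (i : ℕ) :
    ss i ω ≤ (1 / c) ^ i := by
  have hin := inside_of_box hc hω
  unfold ss
  calc ∏ j ∈ range i, rho (ω j) ≤ ∏ _j ∈ range i, (1 / c) :=
        Finset.prod_le_prod (fun j _ => rho_nonneg (hin _).1 (hin _).2) fun j _ => rho_le hc (hω _)
    _ = _ := by simp

/-- the mean of `ρ` -/
noncomputable def mm (α : Measure ℝ) : ℝ := ∫ y, rho y ∂α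

lemma int_rho {c : ℝ} (hα : Ell α c) : Integrable rho α := by
  apply int_one hα measurable_rho (1 / c)
  intro y hy
  have h0 : 0 < y := lt_of_lt_of_le hα.1 hy.1
  have h1 : y < 1 := by linarith [hy.2, hα.1]
  rw [abs_of_nonneg (rho_nonneg h0 h1)]
  exact rho_le hα.1 hy

lemma mm_nonneg {c : ℝ} (hα : Ell α c) : 0 ≤ mm α := by
  apply integral_nonneg_of_ae
  filter_upwards [hα.2] with y hy
  exact rho_nonneg (lt_of_lt_of_le hα.1 hy.1) (by linarith [hy.2, hα.1])

lemma integral_rr {c : ℝ} (hα : Ell α c) (i : ℕ) : ∫ ω, rr i ω ∂(P α) = mm α ^ i := by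
  induction i with
  | zero => simp [rr_zero]
  | succ i ih =>
    simp only [rr_succ]
    rw [factor_out (rr_free i), ih, pow_succ, mul_comm]
    · rfl
    · apply int_of_box hα ((measurable_rho.comp (measurable_pi_apply _)).mul (measurable_rr i))
        ((1 / c) * (1 / c) ^ i)
      intro ω hω
      have hin := inside_of_box hα.1 hω
      have h1 := rr_nonneg hin i
      have h2 := rr_le hα.1 hω i
      have h3 := rho_nonneg (hin (i + 1)).1 (hin (i + 1)).2
      have h4 := rho_le hα.1 (hω (i + 1))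
      simp only [Pi.mul_apply, Function.comp_apply]
      rw [abs_of_nonneg (mul_nonneg h3 h1)]
      exact mul_le_mul h4 h2 h1 (by have := hα.1; positivity)

lemma integral_ss {c : ℝ} (hα : Ell α c) (i : ℕ) : ∫ ω, ss i ω ∂(P α) = mm α ^ i := by
  rw [← integral_rr hα i, ← integral_shift 1 (measurable_ss i).aestronglyMeasurable]
  simp only [rr_shift]

section Terms

variable {c : ℝ} (hα : Ell α c) (n : ℕ)

/-- the quenched mean from `0` -/
noncomputable def FF (n : ℕ) (ω : ℤ → ℝ) : ℝ := qMean ω n 0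

lemma measurable_FF (n : ℕ) : Measurable (FF n) := measurable_qMean n 0

lemma FF_bound {ω : ℤ → ℝ} (hω : Inside ω) (n : ℕ) : |FF n ω| ≤ n := by
  have := qMean_bound hω n 0
  simpa [FF] using this

lemma FF_succ (n : ℕ) (ω : ℤ → ℝ) : FF (n + 1) ω =
    (2 * ω 0 - 1) + ω 0 * FF n (shift 1 ω) + (1 - ω 0) * FF n (shift (-1) ω) := by
  unfold FF
  rw [qMean_succ, qMean_shift, qMean_shift]
  have e1 : (0 : ℤ) - 1 = 0 + -1 := by ring
  rw [e1]
  push_cast
  ring

include hα

lemma int_rF (i : ℕ) : Integrable (fun ω => rr i ω * FF n ω) (P α) := by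
  apply int_of_box hα ((measurable_rr i).mul (measurable_FF n)) ((1 / c) ^ i * n)
  intro ω hω
  have hin := inside_of_box hα.1 hω
  simp only [Pi.mul_apply]
  rw [abs_mul, abs_of_nonneg (rr_nonneg hin i)]
  exact mul_le_mul (rr_le hα.1 hω i) (FF_bound hin n) (abs_nonneg _)
    (by have := hα.1; positivity)

lemma int_sF (i : ℕ) : Integrable (fun ω => ss i ω * FF n ω) (P α) := by
  apply int_of_box hα ((measurable_ss i).mul (measurable_FF n)) ((1 / c) ^ i * n)
  intro ω hω
  have hin := inside_of_box hα.1 hω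
  simp only [Pi.mul_apply]
  rw [abs_mul, abs_of_nonneg (ss_nonneg hin i)]
  exact mul_le_mul (ss_le hα.1 hω i) (FF_bound hin n) (abs_nonneg _)
    (by have := hα.1; positivity)

lemma inv_bound {y : ℝ} (hy : y ∈ Set.Icc c (1 - c)) : |1 / y| ≤ 1 / c := by
  have h0 : 0 < y := lt_of_lt_of_le hα.1 hy.1
  rw [abs_of_pos (by positivity)]
  exact one_div_le_one_div_of_le hα.1 hy.1

lemma int_gF (i : ℕ) : Integrable (fun ω => 1 / ω 0 * (rr i ω * FF n ω)) (P α) := by
  apply int_of_box hα ((measurable_const.div (measurable_pi_apply 0)).mul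
    ((measurable_rr i).mul (measurable_FF n))) (1 / c * ((1 / c) ^ i * n))
  intro ω hω
  have hin := inside_of_box hα.1 hω
  simp only [Pi.mul_apply, Pi.div_apply]
  rw [abs_mul, abs_mul, abs_of_nonneg (rr_nonneg hin i)]
  have := hα.1
  exact mul_le_mul (inv_bound hα (hω 0)) (mul_le_mul (rr_le hα.1 hω i) (FF_bound hin n)
    (abs_nonneg _) (by positivity)) (mul_nonneg (rr_nonneg hin i) (abs_nonneg _)) (by positivity)

/-- `E[g_i F_n] = E[r_i F_n] + E[s_{i+1} F_n]` -/
lemma gF_eq (i : ℕ) : ∫ ω, 1 / ω 0 * (rr i ω * FF n ω) ∂(P α) =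
    ∫ ω, rr i ω * FF n ω ∂(P α) + ∫ ω, ss (i + 1) ω * FF n ω ∂(P α) := by
  rw [← integral_add (int_rF hα n i) (int_sF hα n (i + 1))]
  apply integral_congr_ae
  filter_upwards [ae_box hα] with ω hω
  have h0 : ω 0 ≠ 0 := (inside_of_box hα.1 hω 0).1.ne'
  rw [ss_succ]
  unfold rho
  field_simp
  ring

lemma drift_eq (i : ℕ) : ∫ ω, 1 / ω 0 * rr i ω * (2 * ω 0 - 1) ∂(P α) =
    (1 - mm α) * mm α ^ i := by
  have e : ∫ ω, 1 / ω 0 * rr i ω * (2 * ω 0 - 1) ∂(P α) =
      ∫ ω, (fun y => 1 - rho y) (ω 0) * rr i ω ∂(P α) := by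
    apply integral_congr_ae
    filter_upwards [ae_box hα] with ω hω
    have h0 : ω 0 ≠ 0 := (inside_of_box hα.1 hω 0).1.ne'
    simp only [rho]
    field_simp
    ring
  rw [e, factor_out (h := fun y => 1 - rho y) (rr_free_zero i), integral_rr hα, integral_sub (integrable_const _)
    (int_rho hα)]
  · simp [mm]
  · apply int_of_box hα (((measurable_const.sub measurable_rho).comp
      (measurable_pi_apply 0)).mul (measurable_rr i)) ((1 + 1 / c) * (1 / c) ^ i)
    intro ω hω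
    have hin := inside_of_box hα.1 hω
    have h1 := rr_nonneg hin i
    have h2 := rr_le hα.1 hω i
    have h3 := rho_nonneg (hin 0).1 (hin 0).2
    have h4 := rho_le hα.1 (hω 0)
    have := hα.1
    simp only [Pi.mul_apply, Pi.sub_apply, Function.comp_def]
    rw [abs_mul, abs_of_nonneg h1]
    refine mul_le_mul ?_ h2 h1 (by positivity)
    rw [abs_le]
    constructor <;> linarith

/-- the stationarity identity -/
lemma gF_succ (i : ℕ) : ∫ ω, 1 / ω 0 * (rr i ω * FF (n + 1) ω) ∂(P α) =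
    (1 - mm α) * mm α ^ i + ∫ ω, ss i ω * FF n ω ∂(P α) +
      ∫ ω, rr (i + 1) ω * FF n ω ∂(P α) := by
  have i1 : Integrable (fun ω => 1 / ω 0 * rr i ω * (2 * ω 0 - 1)) (P α) := by
    apply int_of_box hα (((measurable_const.div (measurable_pi_apply 0)).mul
      (measurable_rr i)).mul ((measurable_const.mul (measurable_pi_apply 0)).sub
      measurable_const)) (1 / c * (1 / c) ^ i * 1)
    intro ω hω
    have hin := inside_of_box hα.1 hω
    have h1 := rr_nonneg hin i
    have h2 := rr_le hα.1 hω i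
    have := hα.1
    simp only [Pi.mul_apply, Pi.sub_apply, Pi.div_apply]
    rw [abs_mul, abs_mul, abs_of_nonneg h1]
    refine mul_le_mul (mul_le_mul (inv_bound hα (hω 0)) h2 h1 (by positivity)) ?_
      (abs_nonneg _) (by positivity)
    rw [abs_le]
    constructor <;> linarith [(hin 0).1, (hin 0).2]
  have i2 : Integrable (fun ω => rr i ω * FF n (shift 1 ω)) (P α) := by
    apply int_of_box hα ((measurable_rr i).mul ((measurable_FF n).comp (measurable_shift 1)))
      ((1 / c) ^ i * n)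
    intro ω hω
    have hin := inside_of_box hα.1 hω
    have hin' : Inside (shift 1 ω) := fun x => hin _
    have := hα.1
    simp only [Pi.mul_apply]
    rw [abs_mul, abs_of_nonneg (rr_nonneg hin i)]
    exact mul_le_mul (rr_le hα.1 hω i) (FF_bound hin' n) (abs_nonneg _) (by positivity)
  have i3 : Integrable (fun ω => ss (i + 1) ω * FF n (shift (-1) ω)) (P α) := by
    apply int_of_box hα ((measurable_ss (i + 1)).mul
      ((measurable_FF n).comp (measurable_shift (-1)))) ((1 / c) ^ (i + 1) * n)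
    intro ω hω
    have hin := inside_of_box hα.1 hω
    have hin' : Inside (shift (-1) ω) := fun x => hin _
    have := hα.1
    simp only [Pi.mul_apply]
    rw [abs_mul, abs_of_nonneg (ss_nonneg hin (i + 1))]
    exact mul_le_mul (ss_le hα.1 hω (i + 1)) (FF_bound hin' n) (abs_nonneg _) (by positivity)
  have e : ∫ ω, 1 / ω 0 * (rr i ω * FF (n + 1) ω) ∂(P α) =
      ∫ ω, (1 / ω 0 * rr i ω * (2 * ω 0 - 1) + rr i ω * FF n (shift 1 ω)) +
        ss (i + 1) ω * FF n (shift (-1) ω) ∂(P α) := by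
    apply integral_congr_ae
    filter_upwards [ae_box hα] with ω hω
    have h0 : ω 0 ≠ 0 := (inside_of_box hα.1 hω 0).1.ne'
    rw [FF_succ, ss_succ]
    unfold rho
    field_simp
  have i12 : Integrable (fun ω => 1 / ω 0 * rr i ω * (2 * ω 0 - 1) +
      rr i ω * FF n (shift 1 ω)) (P α) := i1.add i2
  rw [e, integral_add i12 i3, integral_add i1 i2, drift_eq hα i]
  have e2 : ∫ ω, rr i ω * FF n (shift 1 ω) ∂(P α) = ∫ ω, ss i ω * FF n ω ∂(P α) := by
    have := integral_shift (α := α) 1 (G := fun ω => ss i ω * FF n ω)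
      ((measurable_ss i).mul (measurable_FF n)).aestronglyMeasurable
    simp only [rr_shift] at this
    exact this
  have e3 : ∫ ω, ss (i + 1) ω * FF n (shift (-1) ω) ∂(P α) =
      ∫ ω, rr (i + 1) ω * FF n ω ∂(P α) := by
    have := integral_shift (α := α) (-1) (G := fun ω => rr (i + 1) ω * FF n ω)
      ((measurable_rr (i + 1)).mul (measurable_FF n)).aestronglyMeasurable
    simp only [ss_shift] at this
    exact this
  rw [e2, e3]

end Terms

end Pool.Agent.Q290.Rwre
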