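import Pool.Agent.Q290.Rwre.Harris

/-!
# Random walk in an i.i.d. random environment on `ℤ`: the quenched mean
-/

namespace Pool.Agent.Q290.Rwre

open MeasureTheory Filter Finset

/-- A step to the right (`true`) or to the left (`false`). -/
def stp (b : Bool) : ℤ := if b then 1 else -1

/-- The position after the first `k` steps of `w`, started at `x`. -/
def pos {n : ℕ} (x : ℤ) (w : Fin n → Bool) (k : ℕ) : ℤ :=
  x + ∑ i ∈ univ.filter (fun i : Fin n => (i : ℕ) < k), stp (w i)

/-- The quenched probability of the steps `w` for the walk started at `x`: from `y` a step to the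
right has probability `ω y`, a step to the left has probability `1 - ω y`. -/
noncomputable def pathProb {n : ℕ} (ω : ℤ → ℝ) (x : ℤ) (w : Fin n → Bool) : ℝ :=
  ∏ k : Fin n, if w k then ω (pos x w k) else 1 - ω (pos x w k)

/-- The quenched mean `E_x^ω[Z_n]`. -/
noncomputable def qMean (ω : ℤ → ℝ) (n : ℕ) (x : ℤ) : ℝ :=
  ∑ w : Fin n → Bool, pathProb ω x w * (pos x w n : ℝ)

lemma pos_zero {n : ℕ} (x : ℤ) (w : Fin n → Bool) : pos x w 0 = x := by
  unfold pos
  simp

lemma pos_cons {n : ℕ} (x : ℤ) (b : Bool) (w : Fin n → Bool) (k : ℕ) :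
    pos x (Fin.cons b w : Fin (n + 1) → Bool) (k + 1) = pos (x + stp b) w k := by
  unfold pos
  rw [Finset.sum_filter, Finset.sum_filter, Fin.sum_univ_succ]
  simp only [Fin.val_zero, Nat.zero_lt_succ, if_true, Fin.cons_zero, Fin.val_succ,
    Nat.succ_lt_succ_iff, Fin.cons_succ, add_assoc]

lemma pathProb_cons {n : ℕ} (ω : ℤ → ℝ) (x : ℤ) (b : Bool) (w : Fin n → Bool) :
    pathProb ω x (Fin.cons b w : Fin (n + 1) → Bool) =
      (if b then ω x else 1 - ω x) * pathProb ω (x + stp b) w := by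
  unfold pathProb
  rw [Fin.prod_univ_succ]
  simp only [Fin.cons_zero, Fin.val_zero, Fin.cons_succ, Fin.val_succ, pos_zero, pos_cons]

lemma qMean_zero (ω : ℤ → ℝ) (x : ℤ) : qMean ω 0 x = x := by
  unfold qMean
  simp [pathProb, pos_zero]

lemma qMean_succ (ω : ℤ → ℝ) (n : ℕ) (x : ℤ) :
    qMean ω (n + 1) x = ω x * qMean ω n (x + 1) + (1 - ω x) * qMean ω n (x - 1) := by
  unfold qMean
  rw [← (Fin.consEquiv (fun _ : Fin (n + 1) => Bool)).sum_comp, Fintype.sum_prod_type,
    Fintype.sum_bool]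
  simp only [Fin.consEquiv, Equiv.coe_fn_mk, pathProb_cons, pos_cons]
  rw [Finset.mul_sum, Finset.mul_sum]
  congr 1
  · apply Finset.sum_congr rfl
    intro w _
    simp [stp, mul_assoc]
  · apply Finset.sum_congr rfl
    intro w _
    simp [stp, mul_assoc, sub_eq_add_neg]

lemma qMean_shift (ω : ℤ → ℝ) (n : ℕ) (k x : ℤ) :
    qMean (shift k ω) n x = qMean ω n (x + k) - k := by
  induction n generalizing x with
  | zero => simp [qMean_zero]
  | succ n ih =>
    rw [qMean_succ, qMean_succ, ih, ih]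
    have e1 : x + 1 + k = x + k + 1 := by ring
    have e2 : x - 1 + k = x + k - 1 := by ring
    rw [e1, e2]
    simp only [shift]
    ring

/-- environments with values in `(0, 1)` -/
def Inside (ω : ℤ → ℝ) : Prop := ∀ x, 0 < ω x ∧ ω x < 1

lemma qMean_strict {ω : ℤ → ℝ} (hω : Inside ω) (n : ℕ) (x : ℤ) :
    qMean ω n (x - 1) < qMean ω n (x + 1) := by
  induction n generalizing x with
  | zero =>
    rw [qMean_zero, qMean_zero]
    push_cast
    linarith
  | succ n ih =>
    rw [qMean_succ, qMean_succ]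
    have e1 : x - 1 + 1 = x := by ring
    have e2 : x + 1 - 1 = x := by ring
    rw [e1, e2]
    have h1 := ih (x - 1)
    have h2 := ih (x + 1)
    rw [e1] at h1
    rw [e2] at h2
    obtain ⟨a0, a1⟩ := hω (x - 1)
    obtain ⟨b0, b1⟩ := hω (x + 1)
    nlinarith [mul_pos (sub_pos.mpr h1) (sub_pos.mpr a1), mul_pos (sub_pos.mpr h2) b0]

lemma qMean_mono {ω ω' : ℤ → ℝ} (hω : Inside ω) (hω' : Inside ω') (hle : ∀ x, ω x ≤ ω' x)
    (n : ℕ) (x : ℤ) : qMean ω n x ≤ qMean ω' n x := by
  induction n generalizing x with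
  | zero => rw [qMean_zero, qMean_zero]
  | succ n ih =>
    rw [qMean_succ, qMean_succ]
    have h1 := ih (x + 1)
    have h2 := ih (x - 1)
    have h3 := qMean_strict hω' n x
    have h4 := hle x
    obtain ⟨a0, a1⟩ := hω x
    nlinarith [mul_nonneg (sub_nonneg.mpr h1) a0.le, mul_nonneg (sub_nonneg.mpr h2)
      (sub_pos.mpr a1).le, mul_nonneg (sub_nonneg.mpr h4) (sub_pos.mpr h3).le]

lemma inside_update {ω : ℤ → ℝ} (hω : Inside ω) (j : ℤ) {y : ℝ} (h0 : 0 < y) (h1 : y < 1) :
    Inside (Function.update ω j y) := by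
  intro x
  by_cases h : x = j
  · subst h; simp [h0, h1]
  · rw [Function.update_of_ne h]; exact hω x

lemma qMean_update_mono {ω : ℤ → ℝ} (hω : Inside ω) (j : ℤ) {y z : ℝ} (h0 : 0 < y) (hyz : y ≤ z)
    (h1 : z < 1) (n : ℕ) (x : ℤ) :
    qMean (Function.update ω j y) n x ≤ qMean (Function.update ω j z) n x := by
  apply qMean_mono (inside_update hω j h0 (by linarith)) (inside_update hω j (by linarith) h1)
  intro i
  by_cases h : i = j
  · subst h; simpa using hyz
  · rw [Function.update_of_ne h, Function.update_of_ne h]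

lemma qMean_update_strict {ω : ℤ → ℝ} (hω : Inside ω) {y z : ℝ} (h0 : 0 < y) (hyz : y < z)
    (h1 : z < 1) (n : ℕ) (x : ℤ) :
    qMean (Function.update ω x y) (n + 1) x < qMean (Function.update ω x z) (n + 1) x := by
  rw [qMean_succ, qMean_succ, Function.update_self, Function.update_self]
  have a1 := qMean_update_mono hω x h0 hyz.le h1 n (x + 1)
  have a2 := qMean_update_mono hω x h0 hyz.le h1 n (x - 1)
  have a3 := qMean_strict (inside_update hω x (by linarith : 0 < z) h1) n x
  nlinarith [mul_nonneg (sub_nonneg.mpr a1) h0.le, mul_nonneg (sub_nonneg.mpr a2)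
      (by linarith : 0 ≤ 1 - y), mul_pos (sub_pos.mpr hyz) (sub_pos.mpr a3)]

lemma qMean_bound {ω : ℤ → ℝ} (hω : Inside ω) (n : ℕ) (x : ℤ) :
    |qMean ω n x| ≤ |(x : ℝ)| + n := by
  induction n generalizing x with
  | zero => rw [qMean_zero]; simp
  | succ n ih =>
    rw [qMean_succ]
    obtain ⟨a0, a1⟩ := hω x
    have h1 := ih (x + 1)
    have h2 := ih (x - 1)
    have h3 : |((x + 1 : ℤ) : ℝ)| ≤ |(x : ℝ)| + 1 := by
      push_cast
      calc |(x : ℝ) + 1| ≤ |(x : ℝ)| + |(1 : ℝ)| := abs_add_le _ _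
        _ = _ := by simp
    have h4 : |((x - 1 : ℤ) : ℝ)| ≤ |(x : ℝ)| + 1 := by
      push_cast
      calc |(x : ℝ) - 1| ≤ |(x : ℝ)| + |(1 : ℝ)| := abs_sub _ _
        _ = _ := by simp
    calc |ω x * qMean ω n (x + 1) + (1 - ω x) * qMean ω n (x - 1)|
        ≤ |ω x * qMean ω n (x + 1)| + |(1 - ω x) * qMean ω n (x - 1)| := abs_add_le _ _
      _ = ω x * |qMean ω n (x + 1)| + (1 - ω x) * |qMean ω n (x - 1)| := by
          rw [abs_mul, abs_mul, abs_of_pos a0, abs_of_pos (sub_pos.mpr a1)]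
      _ ≤ ω x * (|(x : ℝ)| + 1 + n) + (1 - ω x) * (|(x : ℝ)| + 1 + n) := by
          apply add_le_add
          · exact mul_le_mul_of_nonneg_left (by linarith) a0.le
          · exact mul_le_mul_of_nonneg_left (by linarith) (sub_pos.mpr a1).le
      _ = _ := by push_cast; ring

lemma measurable_qMean (n : ℕ) (x : ℤ) : Measurable fun ω : ℤ → ℝ => qMean ω n x := by
  induction n generalizing x with
  | zero => simp only [qMean_zero]; exact measurable_const
  | succ n ih =>
    simp only [qMean_succ]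
    exact ((measurable_pi_apply x).mul (ih (x + 1))).add
      ((measurable_const.sub (measurable_pi_apply x)).mul (ih (x - 1)))

end Pool.Agent.Q290.Rwre
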